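import Pool.Agent.Helper71.CK.Goals

/-! Proof of `S_EXCESS` (packet CK-EXCESS for helper71). -/

set_option autoImplicit false

namespace Pool.Agent.Helper32.CK

open Pool.Agent.CK

lemma adj_append_bounds (A B : List (Fin 2 × ℤ)) :
    adj A + adj B ≤ adj (A ++ B) ∧ adj (A ++ B) ≤ adj A + adj B + 1 := by
  induction A with
  | nil => simp [adj]
  | cons p A ih =>
    cases A with
    | nil =>
      cases B with
      | nil => simp [adj]
      | cons q B =>
        simp only [List.cons_append, List.nil_append, adj]
        split_ifs <;> omega
    | cons p' A =>
      have h1 : adj (p :: p' :: A) = (if p.1 = p'.1 then 1 else 0) + adj (p' :: A) := rfl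
      have h2 : adj (p :: p' :: A ++ B) = (if p.1 = p'.1 then 1 else 0) + adj (p' :: A ++ B) := rfl
      rw [h1, h2]
      omega

lemma adj_bl (g : Fin 2) (K : List ℤ) : adj (bl g K) = K.length - 1 := by
  induction K with
  | nil => rfl
  | cons x K ih =>
    cases K with
    | nil => rfl
    | cons y K =>
      have h1 : adj (bl g (x :: y :: K)) = (if g = g then 1 else 0) + adj (bl g (y :: K)) := rfl
      rw [h1, ih]
      simp only [if_true, List.length_cons]
      omega

lemma bl_length (g : Fin 2) (K : List ℤ) : (bl g K).length = K.length := by
  simp [bl]

lemma nc_nil_aux (L : List (Fin 2 × ℤ)) (B : List (Fin 2 × List ℤ)) (h : NC L B) :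
    (B.map (fun b => b.2.length)).sum = L.length := by
  induction h with
  | nil => rfl
  | ins g L₁ K L₂ B _ ih =>
    simp only [List.map_cons, List.sum_cons, List.length_append, bl_length] at ih ⊢
    omega

lemma sum_sub_zero (B : List (Fin 2 × List ℤ))
    (h : (B.map (fun b => b.2.length)).sum = 0) :
    (B.map (fun b => b.2.length - 2)).sum = 0 := by
  induction B with
  | nil => rfl
  | cons b B ih =>
    simp only [List.map_cons, List.sum_cons] at h ⊢
    have := ih (by omega)
    omega

theorem excess : S_EXCESS := by
  intro L B h
  induction h with
  | nil => intro h; exact absurd rfl h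
  | ins g L₁ K L₂ B hNC ih =>
    intro _
    have hb1 := adj_append_bounds (L₁ ++ bl g K) L₂
    have hb2 := adj_append_bounds L₁ (bl g K)
    have hb3 := adj_append_bounds L₁ L₂
    have hk := adj_bl g K
    simp only [List.map_cons, List.sum_cons, List.filter_cons]
    rcases Nat.eq_zero_or_pos K.length with h0 | hpos
    · have hK : K = [] := List.length_eq_zero_iff.mp h0
      subst hK
      have hne : L₁ ++ L₂ ≠ [] := by
        intro he
        simp only [bl, List.map_nil, List.append_nil] at *
        exact absurd he (by assumption)
      have := ih hne
      simp only [bl, List.map_nil, List.append_nil, List.length_nil] at this ⊢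
      simp only [show ¬ ((0 : ℕ) = 1) from by norm_num, decide_false, if_false]
      simpa using this
    · have hfil : (if decide (K.length = 1) = true then
          (g, K) :: B.filter (fun b => decide (b.2.length = 1))
          else B.filter (fun b => decide (b.2.length = 1))).length =
          (if K.length = 1 then 1 else 0) +
            (B.filter (fun b => decide (b.2.length = 1))).length := by
        by_cases h1 : K.length = 1
        · simp [h1, Nat.add_comm]
        · simp [h1]
      rw [hfil]
      by_cases hM : L₁ ++ L₂ = []
      · have hs := nc_nil_aux _ _ hNC
        rw [hM] at hs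
        have hz := sum_sub_zero B hs
        rw [hz]
        obtain ⟨e1, e2⟩ := List.append_eq_nil_iff.mp hM
        subst e1 e2
        simp only [List.nil_append, List.append_nil]
        rw [hk]
        split_ifs <;> omega
      · have := ih hM
        split_ifs <;> omega

end Pool.Agent.Helper32.CK
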